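import Pool.Agent.Helper58.PB.StM

/-!
# Project PB, module DEN (local densities)
-/

set_option autoImplicit false

namespace Pool.Agent.Helper36.PB

open Finset ArithmeticFunction
open Pool.Agent.Helper48.BK (AdN Cl)
open Pool.Agent.Helper58.PB

/-- the indicator that no prime of `T` divides a coordinate -/
private noncomputable def ind_DEN (T : Finset ℕ) (u v w : ℕ) : ℂ :=
  if ∀ p ∈ T, ¬ p ∣ u ∧ ¬ p ∣ v ∧ ¬ p ∣ w then 1 else 0

/-- the indicator that `p` divides no coordinate -/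
private noncomputable def one_DEN (p : ℕ) (u v w : ℕ) : ℂ :=
  if ¬ p ∣ u ∧ ¬ p ∣ v ∧ ¬ p ∣ w then 1 else 0

/-- local density at `p` -/
private noncomputable def eR_DEN (a b c : ℕ) (d : ℤ) (p : ℕ) : ℝ :=
  (((Cl a b c d p).filter (fun u => ¬ p ∣ u.1 ∧ ¬ p ∣ u.2.1 ∧ ¬ p ∣ u.2.2)).card : ℝ) / (p : ℝ) ^ 2

private lemma En_one_DEN (a b c : ℕ) (d : ℤ) (p : ℕ) :
    En a b c d p (one_DEN p) = ((eR_DEN a b c d p : ℝ) : ℂ) := by
  unfold En eR_DEN one_DEN
  rw [Finset.sum_boole]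
  push_cast
  rw [one_div, mul_comm, div_eq_mul_inv]

private lemma dvd_congr_DEN {p M u u' : ℕ} (hp : p ∣ M) (h : u ≡ u' [MOD M]) : p ∣ u ↔ p ∣ u' :=
  (h.of_dvd hp).dvd_iff (dvd_refl p)

private lemma per_one_DEN (p : ℕ) : Per3 p (one_DEN p) := by
  intro u v w u' v' w' hu hv hw
  unfold one_DEN
  simp only [dvd_congr_DEN (dvd_refl p) hu, dvd_congr_DEN (dvd_refl p) hv,
    dvd_congr_DEN (dvd_refl p) hw]

private lemma per_ind_DEN (T : Finset ℕ) : Per3 (∏ p ∈ T, p) (ind_DEN T) := by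
  intro u v w u' v' w' hu hv hw
  unfold ind_DEN
  have : (∀ p ∈ T, ¬ p ∣ u ∧ ¬ p ∣ v ∧ ¬ p ∣ w) ↔ (∀ p ∈ T, ¬ p ∣ u' ∧ ¬ p ∣ v' ∧ ¬ p ∣ w') := by
    refine forall₂_congr ?_
    intro p hp
    have hd : p ∣ ∏ q ∈ T, q := Finset.dvd_prod_of_mem _ hp
    rw [dvd_congr_DEN hd hu, dvd_congr_DEN hd hv, dvd_congr_DEN hd hw]
  simp only [this]

private lemma split_DEN (hl : StLft) (hc : StCrt) (a b c : ℕ) (d : ℤ)
    (hg : Nat.gcd a (Nat.gcd b c) = 1) (T : Finset ℕ) (hT : ∀ p ∈ T, p.Prime) :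
    En a b c d (∏ p ∈ T, p) (ind_DEN T) = ((∏ p ∈ T, eR_DEN a b c d p : ℝ) : ℂ) := by
  classical
  induction T using Finset.induction_on with
  | empty =>
    have h1 := (hl a b c 1 1 d le_rfl le_rfl hg).1
    simp only [Finset.prod_empty]
    unfold En ind_DEN
    simp only [Finset.notMem_empty, false_imp_iff, implies_true, if_true, Finset.sum_const, h1]
    norm_num
  | insert p T hp ih =>
    have hpp : p.Prime := hT p (Finset.mem_insert_self p T)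
    have hT' : ∀ q ∈ T, q.Prime := fun q hq => hT q (Finset.mem_insert_of_mem hq)
    rw [Finset.prod_insert hp, Finset.prod_insert hp]
    have hcop : Nat.Coprime p (∏ q ∈ T, q) := by
      apply Nat.Coprime.prod_right
      intro q hq
      exact (Nat.coprime_primes hpp (hT' q hq)).2 (fun h => hp (h ▸ hq))
    have hpos : 1 ≤ ∏ q ∈ T, q := Finset.prod_pos (fun q hq => (hT' q hq).pos)
    have h2 := hc a b c p (∏ q ∈ T, q) d hpp.pos hpos hcop (one_DEN p) (ind_DEN T) (per_one_DEN p)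
      (per_ind_DEN T)
    have h3 : ind_DEN (insert p T) = fun u v w => one_DEN p u v w * ind_DEN T u v w := by
      funext u v w
      unfold ind_DEN one_DEN
      by_cases h1 : ¬ p ∣ u ∧ ¬ p ∣ v ∧ ¬ p ∣ w
      · by_cases h2 : ∀ q ∈ T, ¬ q ∣ u ∧ ¬ q ∣ v ∧ ¬ q ∣ w
        · rw [if_pos h1, if_pos h2, if_pos, mul_one]
          intro q hq
          rcases Finset.mem_insert.1 hq with rfl | hq
          · exact h1
          · exact h2 q hq
        · rw [if_neg h2, if_neg, mul_zero]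
          exact fun h => h2 (fun q hq => h q (Finset.mem_insert_of_mem hq))
      · rw [if_neg h1, if_neg, zero_mul]
        exact fun h => h1 (h p (Finset.mem_insert_self p T))
    rw [h3, h2, En_one_DEN, ih hT']
    push_cast
    rfl

/-- the lower bound for the local factor at a prime `p ≥ 3` -/
private lemma loc_DEN (h : Pool.Agent.Helper48.BK.StLoc) (a b c : ℕ) (d : ℤ) (hA : AdN a b c d)
    (p : ℕ) (hp : p.Prime) (h3 : 3 ≤ p) :
    ((p : ℝ) * (p - 2)) / ((p : ℝ) - 1) ^ 2 ≤ ((p : ℝ) / (p - 1)) ^ 3 * eR_DEN a b c d p := by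
  have h1 := (h a b c d p hA hp h3).2.2
  have h2 : (Cl a b c d p).filter (fun u => ¬ p ∣ u.1 * u.2.1 * u.2.2) =
      (Cl a b c d p).filter (fun u => ¬ p ∣ u.1 ∧ ¬ p ∣ u.2.1 ∧ ¬ p ∣ u.2.2) := by
    apply Finset.filter_congr
    intro u _
    rw [hp.dvd_mul, hp.dvd_mul]
    tauto
  rw [h2] at h1
  unfold eR_DEN
  set N := ((Cl a b c d p).filter (fun u => ¬ p ∣ u.1 ∧ ¬ p ∣ u.2.1 ∧ ¬ p ∣ u.2.2)).card with hN
  have h4 : ((p : ℝ) - 1) * ((p : ℝ) - 2) ≤ (N : ℝ) := by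
    have : (((p - 1) * (p - 2) : ℕ) : ℝ) ≤ (N : ℝ) := by exact_mod_cast h1
    rw [Nat.cast_mul, Nat.cast_sub (by omega), Nat.cast_sub (by omega)] at this
    simpa using this
  have hp3 : (3 : ℝ) ≤ (p : ℝ) := by exact_mod_cast h3
  have hp1 : (0 : ℝ) < (p : ℝ) - 1 := by linarith
  have hp0 : (0 : ℝ) < (p : ℝ) := by linarith
  have e1 : ((p : ℝ) / (p - 1)) ^ 3 * ((N : ℝ) / (p : ℝ) ^ 2) =
      ((p : ℝ) * N) / ((p : ℝ) - 1) ^ 3 := by
    field_simp
  rw [e1, div_le_div_iff₀ (by positivity) (by positivity)]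
  have e2 : (p : ℝ) * (p - 2) * ((p : ℝ) - 1) ^ 3 =
      (p : ℝ) * (((p : ℝ) - 1) * ((p : ℝ) - 2)) * ((p : ℝ) - 1) ^ 2 := by ring
  rw [e2]
  apply mul_le_mul_of_nonneg_right _ (by positivity)
  exact mul_le_mul_of_nonneg_left h4 hp0.le

/-- the local factor at `2` -/
private lemma two_DEN (a b c : ℕ) (d : ℤ) (hA : AdN a b c d) :
    (2 : ℝ) ≤ (((2 : ℕ) : ℝ) / (((2 : ℕ) : ℝ) - 1)) ^ 3 * eR_DEN a b c d 2 := by
  have h1 : 1 ≤ ((Cl a b c d 2).filter (fun u => ¬ 2 ∣ u.1 ∧ ¬ 2 ∣ u.2.1 ∧ ¬ 2 ∣ u.2.2)).card := by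
    rw [Nat.one_le_iff_ne_zero, Finset.card_ne_zero]
    refine ⟨(1, 1, 1), ?_⟩
    rw [Finset.mem_filter]
    refine ⟨?_, by norm_num, by norm_num, by norm_num⟩
    unfold Cl
    rw [Finset.mem_filter]
    refine ⟨by simp, ?_⟩
    obtain ⟨k, hk⟩ := hA.1
    refine ⟨k - c - d, ?_⟩
    push_cast
    linarith
  unfold eR_DEN
  set N := ((Cl a b c d 2).filter (fun u => ¬ 2 ∣ u.1 ∧ ¬ 2 ∣ u.2.1 ∧ ¬ 2 ∣ u.2.2)).card with hN
  have h2 : (1 : ℝ) ≤ (N : ℝ) := by exact_mod_cast h1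
  have : (((2 : ℕ) : ℝ) / (((2 : ℕ) : ℝ) - 1)) ^ 3 * ((N : ℝ) / ((2 : ℕ) : ℝ) ^ 2) = 2 * N := by
    push_cast
    norm_num
    ring
  rw [this]
  linarith

/-- the Euler product -/
private lemma prod_DEN (g : ℕ → ℝ) (h2 : 2 ≤ g 2)
    (h3 : ∀ p : ℕ, p.Prime → 3 ≤ p → ((p : ℝ) * (p - 2)) / ((p : ℝ) - 1) ^ 2 ≤ g p) (Q : ℕ)
    (hQ : 2 ≤ Q) :
    (Q : ℝ) / ((Q : ℝ) - 1) ≤ ∏ p ∈ (range (Q + 1)).filter Nat.Prime, g p := by
  induction Q, hQ using Nat.le_induction with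
  | base =>
    have : (range (2 + 1)).filter Nat.Prime = {2} := by decide
    rw [this, Finset.prod_singleton]
    push_cast
    norm_num
    exact h2
  | succ Q hQ ih =>
    have hq : (2 : ℝ) ≤ (Q : ℝ) := by exact_mod_cast hQ
    have hq1 : (0 : ℝ) < (Q : ℝ) - 1 := by linarith
    rw [Finset.range_add_one (n := Q + 1), Finset.filter_insert]
    split_ifs with hp
    · rw [Finset.prod_insert (by simp)]
      have h4 := h3 (Q + 1) hp (by omega)
      have h5 : ((Q + 1 : ℕ) : ℝ) / (((Q + 1 : ℕ) : ℝ) - 1) =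
          ((((Q + 1 : ℕ) : ℝ) * (((Q + 1 : ℕ) : ℝ) - 2)) / (((Q + 1 : ℕ) : ℝ) - 1) ^ 2) *
            ((Q : ℝ) / ((Q : ℝ) - 1)) := by
        push_cast
        have e1 : (Q : ℝ) + 1 - 2 = (Q : ℝ) - 1 := by ring
        have e2 : (Q : ℝ) + 1 - 1 = (Q : ℝ) := by ring
        rw [e1, e2]
        field_simp
      rw [h5]
      apply mul_le_mul h4 ih (by positivity)
      refine le_trans ?_ h4
      push_cast
      have e1 : (Q : ℝ) + 1 - 2 = (Q : ℝ) - 1 := by ring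
      rw [e1]
      positivity
    · refine le_trans ?_ ih
      push_cast
      have e2 : (Q : ℝ) + 1 - 1 = (Q : ℝ) := by ring
      rw [e2, div_le_div_iff₀ (by linarith) hq1]
      nlinarith

theorem hDen : Pool.Agent.Helper48.BK.StLoc → StLft → StCrt → StDen := by
  intro hloc hl hc a b c Q d ha hb hcc hA
  have hg : Nat.gcd a (Nat.gcd b c) = 1 := hA.2.1
  set T := (range (Q + 1)).filter Nat.Prime with hT
  have hTp : ∀ p ∈ T, p.Prime := fun p hp => (Finset.mem_filter.1 hp).2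
  have hPi : Pi0 Q = ∏ p ∈ T, p := rfl
  have hpos : 1 ≤ Pi0 Q := by
    rw [hPi]
    exact Finset.prod_pos (fun q hq => (hTp q hq).pos)
  have hdvd : Pi0 Q ∣ Nat.factorial Q := by
    rw [hPi]
    apply Finset.prod_primes_dvd
    · intro p hp
      exact (hTp p hp).prime
    · intro p hp
      apply Nat.dvd_factorial (hTp p hp).pos
      have := Finset.mem_range.1 (Finset.mem_filter.1 hp).1
      omega
  obtain ⟨M', hM'⟩ := hdvd
  have hM1 : 1 ≤ M' := by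
    rcases Nat.eq_zero_or_pos M' with h | h
    · rw [h, mul_zero] at hM'
      exact absurd hM' (Nat.factorial_ne_zero Q)
    · exact h
  have hfun : (fun u v w : ℕ =>
      if Nat.Coprime u (Pi0 Q) ∧ Nat.Coprime v (Pi0 Q) ∧ Nat.Coprime w (Pi0 Q) then (1 : ℂ) else 0) =
      ind_DEN T := by
    funext u v w
    unfold ind_DEN
    have hco : ∀ x : ℕ, Nat.Coprime x (Pi0 Q) ↔ ∀ p ∈ T, ¬ p ∣ x := by
      intro x
      rw [hPi, Nat.coprime_prod_right_iff]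
      refine forall₂_congr ?_
      intro p hp
      rw [Nat.coprime_comm, (hTp p hp).coprime_iff_not_dvd]
    have : (Nat.Coprime u (Pi0 Q) ∧ Nat.Coprime v (Pi0 Q) ∧ Nat.Coprime w (Pi0 Q)) ↔
        (∀ p ∈ T, ¬ p ∣ u ∧ ¬ p ∣ v ∧ ¬ p ∣ w) := by
      rw [hco, hco, hco]
      constructor
      · intro h p hp
        exact ⟨h.1 p hp, h.2.1 p hp, h.2.2 p hp⟩
      · intro h
        exact ⟨fun p hp => (h p hp).1, fun p hp => (h p hp).2.1, fun p hp => (h p hp).2.2⟩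
    simp only [this]
  have hEn : En a b c d (Nat.factorial Q) (fun u v w =>
      if Nat.Coprime u (Pi0 Q) ∧ Nat.Coprime v (Pi0 Q) ∧ Nat.Coprime w (Pi0 Q) then 1 else 0) =
      ((∏ p ∈ T, eR_DEN a b c d p : ℝ) : ℂ) := by
    rw [hfun, hM', (hl a b c (Pi0 Q) M' d hpos hM1 hg).2 (ind_DEN T) (per_ind_DEN T), hPi]
    exact split_DEN hl hc a b c d hg T hTp
  rw [hEn, Complex.ofReal_re, ← Finset.prod_pow, ← Finset.prod_mul_distrib]
  rcases Nat.lt_or_ge Q 2 with hQ | hQ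
  · have : T = ∅ := by
      rw [hT, Finset.filter_eq_empty_iff]
      intro p hp hpp
      have := Finset.mem_range.1 hp
      have := hpp.two_le
      omega
    rw [this, Finset.prod_empty]
  · refine le_trans ?_ (prod_DEN (fun p => ((p : ℝ) / ((p : ℝ) - 1)) ^ 3 * eR_DEN a b c d p)
      (two_DEN a b c d hA) (fun p hp h3 => loc_DEN hloc a b c d hA p hp h3) Q hQ)
    have hq : (2 : ℝ) ≤ (Q : ℝ) := by exact_mod_cast hQ
    rw [le_div_iff₀ (by linarith)]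
    linarith

end Pool.Agent.Helper36.PB
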